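import Mathlib
import Pool.Agent.MP_aca74d_lc.H29.Member

/-!
Angular resolution at least sixty degrees is complete for the existential theory of the reals.
-/

namespace Pool.Agent.Results.MP_aca74d_lc.ARPiThird

open Pool.Agent.MP_aca74d_lc.H29

theorem result : ∀ strict : Bool,
    N793a5b8e.IsCompleteFor ExistsR (AR strict (Real.pi / 3)) :=
  complete_for

end Pool.Agent.Results.MP_aca74d_lc.ARPiThird
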